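import Mathlib
import Pool.Agent.W844.GP.Defs

/-!
# Project GP: `S_CH → S_WW → S_TAIL → S_CLB`
-/

set_option autoImplicit false
set_option maxHeartbeats 4000000

open Finset MeasureTheory ProbabilityTheory Filter Topology
open scoped ENNReal

namespace Pool.Agent.W479.GP

open Pool.Agent.W844.VG (V stp nm)
open Pool.Agent.W844.GP

variable {d : ℕ}

/-! ### shifts -/

lemma sh_meas (a : V d) : Measurable (sh (d := d) a) :=
  measurable_pi_lambda _ fun x => measurable_pi_apply (x + a)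

/-- the shift as a measurable equivalence -/
def shE (a : V d) : (V d → ℝ) ≃ᵐ (V d → ℝ) where
  toFun := sh a
  invFun := sh (-a)
  left_inv w := by funext x; simp [sh]
  right_inv w := by funext x; simp [sh]
  measurable_toFun := sh_meas a
  measurable_invFun := sh_meas (-a)

lemma map_sh (ν : Measure ℝ) [IsProbabilityMeasure ν] (a : V d) :
    (law ν d).map (sh a) = law ν d := by
  unfold law
  refine Measure.eq_infinitePi _ fun s t ht => ?_
  rw [Measure.map_apply (sh_meas a)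
    (MeasurableSet.pi s.countable_toSet fun i _ => ht i)]
  have h : sh a ⁻¹' (Set.pi s t) =
      Set.pi (s.map (addRightEmbedding a)) (fun j => t (j - a)) := by
    ext w
    simp only [Set.mem_preimage, Set.mem_pi, sh, Finset.coe_map, addRightEmbedding_apply,
      Set.mem_image, Finset.mem_coe, forall_exists_index, and_imp, forall_apply_eq_imp_iff₂,
      add_sub_cancel_right]
  rw [h, Measure.infinitePi_pi _ (fun i _ => ht _), Finset.prod_map]
  simp

lemma law_sh (ν : Measure ℝ) [IsProbabilityMeasure ν] (a : V d) (S : Set (V d → ℝ)) :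
    law ν d {w | sh a w ∈ S} = law ν d S := by
  have h : MeasurePreserving (shE a) (law ν d) (law ν d) := ⟨(shE a).measurable, map_sh ν a⟩
  exact h.measure_preimage_equiv S

lemma sh_sh (a b : V d) (w : V d → ℝ) : sh a (sh b w) = sh (a + b) w := by
  funext x; simp [sh, add_assoc]

lemma pt_add (i : Fin d) (m n : ℤ) : pt i m + pt i n = pt i (m + n) := by
  unfold pt; rw [Pi.single_add]

lemma pt_apply (i : Fin d) (m : ℤ) : pt i m i = m := by simp [pt]

lemma adj_shift {x y a : V d} (h : adj x y) : adj (x + a) (y + a) := by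
  unfold adj at *
  simpa using h

lemma SB_shift {i : Fin d} {l : List (V d)} {x y : V d} (a : V d) (h : SB i l x y) :
    SB i (l.map (· + a)) (x + a) (y + a) := by
  obtain ⟨⟨h1, h2⟩, h3, h4⟩ := h
  have e : (x + a) :: l.map (· + a) = (x :: l).map (· + a) := rfl
  refine ⟨⟨?_, ?_⟩, ?_, ?_⟩
  · rw [e, List.isChain_map]
    exact h1.imp fun _ _ => adj_shift
  · rw [e]
    exact h2.map (add_left_injective a)
  · rw [e, List.getLast?_map, h3]; rfl
  · intro z hz
    obtain ⟨z', hz', rfl⟩ := List.mem_map.1 hz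
    have := h4 z' hz'
    simpa using this

lemma wt_shift (a : V d) (w : V d → ℝ) (l : List (V d)) :
    wt w (l.map (· + a)) = wt (sh a w) l := by
  unfold wt
  rw [List.map_map]; rfl

lemma Far_shift {K : ℝ} {w : V d → ℝ} {x a : V d} {k : ℕ} (h : Far K w (x + a) k) :
    Far K (sh a w) x k := by
  obtain ⟨y, ⟨x', hx', hy⟩, hk⟩ := h
  rw [Set.mem_singleton_iff] at hx'
  subst hx'
  refine ⟨y - a, ⟨x, rfl, ?_⟩, ?_⟩
  · have h2 : Relation.ReflTransGen (fun b c => c ∈ Cl K (sh a w) ∧ nm (c - b) ≤ 2)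
        (x + a - a) (y - a) := by
      have h3 : (fun b c : V d => c ∈ Cl K w ∧ nm (c - b) ≤ 2) ≤
          Function.onFun (fun b c => c ∈ Cl K (sh a w) ∧ nm (c - b) ≤ 2) (fun z => z - a) := by
        intro b c hbc
        refine ⟨?_, ?_⟩
        · have := hbc.1
          simpa [Cl, sh] using this
        · have := hbc.2
          simpa using this
      exact Relation.ReflTransGen.lift (fun z => z - a) h3 _ _ hy
    simpa using h2
  · have e : y - a - x = y - (x + a) := by abel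
    rw [e]; exact hk

lemma Far_mono {K : ℝ} {w : V d → ℝ} {x : V d} {k k' : ℕ} (hk : k ≤ k') (h : Far K w x k') :
    Far K w x k := by
  obtain ⟨y, hy, h2⟩ := h
  exact ⟨y, hy, hk.trans h2⟩

lemma Far_zero (K : ℝ) (w : V d → ℝ) (x : V d) : Far K w x 0 :=
  ⟨x, ⟨x, rfl, Relation.ReflTransGen.refl⟩, Nat.zero_le _⟩

lemma GG_ge {p : ℕ} {K : ℝ} {w : V d → ℝ} {x : V d} {k : ℕ} (h : Far K w x k) :
    (((2 * k + 7) ^ p : ℕ) : ℝ≥0∞) ≤ GG p K w x := by
  classical
  unfold GG
  refine le_trans ?_ (ENNReal.le_tsum k)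
  rw [if_pos h]
  push_cast
  exact le_rfl

lemma GG_bdd {p : ℕ} {K : ℝ} {w : V d → ℝ} {x : V d} (h : GG p K w x ≠ ⊤) :
    BddAbove {k | Far K w x k} := by
  classical
  by_contra hb
  apply h
  have hall : ∀ k, Far K w x k := by
    intro k
    rw [not_bddAbove_iff] at hb
    obtain ⟨y, hy, hky⟩ := hb k
    exact Far_mono hky.le hy
  unfold GG
  rw [eq_top_iff]
  have h1 : (∑' k : ℕ, (1 : ℝ≥0∞)) = ⊤ := ENNReal.tsum_const_eq_top_of_ne_zero one_ne_zero
  rw [← h1]
  refine ENNReal.tsum_le_tsum fun k => ?_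
  rw [if_pos (hall k)]
  have h2 : (1 : ℝ≥0∞) ≤ (2 * k + 7) := by
    calc (1 : ℝ≥0∞) ≤ 7 := by norm_num
      _ ≤ _ := le_add_self
  exact one_le_pow₀ h2

/-! ### `VV` -/

lemma VV_nonpos (i : Fin d) (L : ℕ) (B : ℝ) (h : ℕ) (w : V d → ℝ) (hB : 0 ≤ B) :
    VV i L B h w ≤ 0 := by
  unfold VV
  refine csSup_le ⟨-(B * h), ?_, Or.inl le_rfl⟩ fun c hc => hc.1
  have : 0 ≤ B * h := by positivity
  linarith

lemma VV_ge (i : Fin d) (L : ℕ) (B : ℝ) (h : ℕ) (w : V d → ℝ) (hB : 0 ≤ B) :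
    -(B * h) ≤ VV i L B h w := by
  unfold VV
  refine le_csSup ⟨0, fun c hc => hc.1⟩ ⟨?_, Or.inl le_rfl⟩
  have : 0 ≤ B * h := by positivity
  linarith

lemma VV_app (i : Fin d) (L : ℕ) (B : ℝ) (h : ℕ) (w : V d → ℝ) (hB : 0 ≤ B) (δ : ℝ) (hδ : 0 < δ)
    (hg : YY w i L h (-(B * h))) :
    ∃ c ≤ 0, VV i L B h w - δ ≤ c ∧ -(B * h) ≤ c ∧ YY w i L h c := by
  have hBh : 0 ≤ B * h := by positivity
  have hne : {c : ℝ | c ≤ 0 ∧ (c ≤ -(B * h) ∨ YY w i L h c)}.Nonempty :=
    ⟨-(B * h), by linarith, Or.inl le_rfl⟩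
  obtain ⟨c, ⟨hc1, hc2⟩, hc3⟩ := exists_lt_of_lt_csSup hne
    (show VV i L B h w - δ < sSup _ by unfold VV; linarith)
  rcases le_total c (-(B * h)) with h1 | h1
  · exact ⟨-(B * h), by linarith, by linarith, le_rfl, hg⟩
  · rcases hc2 with h2 | h2
    · exact ⟨-(B * h), by linarith, by linarith, le_rfl, hg⟩
    · exact ⟨c, hc1, hc3.le, h1, h2⟩

lemma aa_ge (ν : Measure ℝ) [IsProbabilityMeasure ν] (i : Fin d) (L : ℕ) (B : ℝ) (h : ℕ)
    (hB : 0 ≤ B) (hh : 1 ≤ h) : -B ≤ aa ν i L B h := by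
  unfold aa
  have hh' : (0 : ℝ) < h := by exact_mod_cast hh
  rw [le_div_iff₀ hh']
  have : IsProbabilityMeasure (law ν d) := by unfold law; infer_instance
  have h1 : ‖∫ w, VV i L B h w ∂law ν d‖ ≤ (B * h) * (law ν d).real Set.univ := by
    refine norm_integral_le_of_norm_le_const (Eventually.of_forall fun w => ?_)
    rw [Real.norm_eq_abs, abs_le]
    have h2 := VV_nonpos i L B h w hB
    have h3 := VV_ge i L B h w hB
    have : 0 ≤ B * h := by positivity
    exact ⟨h3, by linarith⟩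
  simp only [probReal_univ, mul_one, Real.norm_eq_abs] at h1
  have := (abs_le.1 h1).1
  linarith

/-! ### the deterministic part -/

lemma natAbs_le_nm (x : V d) (i : Fin d) : (x i).natAbs ≤ nm x :=
  Finset.le_sup (f := fun i => (x i).natAbs) (mem_univ i)

open scoped Classical in
lemma det (hCH : S_CH) (i : Fin d) (hd : 2 ≤ d) (w : V d → ℝ) (T K B δ C0 A : ℝ) (L h J' r : ℕ)
    (hT : 0 ≤ T) (hK : 0 ≤ K) (hB : 0 ≤ B) (hδ : 0 < δ) (h10 : 10 ≤ h) (hL : 1 ≤ L)
    (hr : r < h) (hwT : ∀ x, w x ≤ T) (hJ' : 1 ≤ J')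
    (g0 : YY w i L (h + r) (-(B * (h + r))))
    (g1 : YY (sh (pt i (r + h * J' : ℕ)) w) i L h (-(B * h)))
    (g2 : ∀ m : ℕ, h < m → m ≤ r + h * J' →
      ¬ Far K w (pt i m) (min m (r + h * (J' + 1) - m) - 2))
    (g3 : ∑ j ∈ range J', WW i L B K C0 h (sh (pt i (j * h)) (sh (pt i (h + r)) w)) <
      ENNReal.ofReal (A * h * J'))
    (hC : B + T * L + 2 * K + 2 ≤ C0) :
    ∃ Q : ℕ, C0 * Q ≤ A * h * J' ∧ ∃ l, SB i l 0 (pt i (r + h * (J' + 1) : ℕ)) ∧
      l.length ≤ L * (r + h * (J' + 1)) + Q ∧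
      -(A * h * J') - (2 * B + 8 * C0) * h - δ * J' ≤ wt w l := by
  have hC0 : 0 < C0 := by
    have : 0 ≤ T * L := by positivity
    linarith
  set t : ℕ → ℕ := fun j => if j = 0 then 0 else r + h * j with ht
  have t0 : t 0 = 0 := by simp [ht]
  have tS : ∀ j, t (j + 1) = r + h * (j + 1) := fun j => by simp [ht]
  set P : ℕ → Prop := fun j => j ≠ 0 ∧ ¬ YY (sh (pt i (t j)) w) i L h (-(B * h)) with hP
  set bad : Finset ℕ := (range (J' + 1)).filter P with hbad
  -- the costs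
  have hc : ∀ j, ∃ c : ℝ, c ≤ 0 ∧ (j = 0 → c = -(B * (h + r))) ∧
      (j ≠ 0 → VV i L B h (sh (pt i (t j)) w) - δ ≤ c) ∧
      (j ≠ 0 → YY (sh (pt i (t j)) w) i L h (-(B * h)) →
        -(B * h) ≤ c ∧ YY (sh (pt i (t j)) w) i L h c) := by
    intro j
    by_cases hj : j = 0
    · refine ⟨-(B * (h + r)), ?_, fun _ => rfl, fun h' => absurd hj h', fun h' => absurd hj h'⟩
      have : 0 ≤ B * (h + r) := by positivity
      linarith
    · by_cases hg : YY (sh (pt i (t j)) w) i L h (-(B * h))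
      · obtain ⟨c, h1, h2, h3, h4⟩ := VV_app i L B h _ hB δ hδ hg
        exact ⟨c, h1, fun h' => absurd h' hj, fun _ => h2, fun _ _ => ⟨h3, h4⟩⟩
      · exact ⟨VV i L B h (sh (pt i (t j)) w), VV_nonpos i L B h _ hB, fun h' => absurd h' hj,
          fun _ => by linarith, fun _ h' => absurd h' hg⟩
  choose c c1 c2 c3 c4 using hc
  set ρ : ℕ → ℕ := fun m => sSup {k | Far K w (pt i m) k} with hρ
  -- the finite costs
  have hshift : ∀ j, sh (pt i ((j : ℕ) * h)) (sh (pt i (h + r)) w) = sh (pt i (t (j + 1))) w := by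
    intro j
    rw [sh_sh, pt_add, tS]
    congr 2
    push_cast
    ring
  have hWtop : ∀ j ∈ range J', WW i L B K C0 h (sh (pt i (t (j + 1))) w) ≠ ⊤ := by
    intro j hj
    have h1 : WW i L B K C0 h (sh (pt i (j * h)) (sh (pt i (h + r)) w)) ≤
        ∑ j ∈ range J', WW i L B K C0 h (sh (pt i (j * h)) (sh (pt i (h + r)) w)) :=
      Finset.single_le_sum (f := fun j : ℕ =>
        WW i L B K C0 h (sh (pt i (j * h)) (sh (pt i (h + r)) w))) (fun _ _ => zero_le) hj
    rw [hshift] at h1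
    exact ((h1.trans_lt g3).trans_le le_top).ne
  have hGG : ∀ j ∈ range J', P (j + 1) → ∀ m ∈ Icc 1 h,
      GG d K (sh (pt i (t (j + 1))) w) (pt i m) ≠ ⊤ := by
    intro j hj hPj m hm htop
    apply hWtop j hj
    unfold WW
    rw [if_neg hPj.2]
    have h1 : ∑ m ∈ Icc 1 h, GG d K (sh (pt i (t (j + 1))) w) (pt i (m : ℕ)) = ⊤ := by
      rw [eq_top_iff, ← htop]
      exact Finset.single_le_sum (f := fun m : ℕ =>
        GG d K (sh (pt i (t (j + 1))) w) (pt i m)) (fun _ _ => zero_le) hm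
    rw [h1]
    have h2 : ENNReal.ofReal C0 ≠ 0 := by simpa using hC0
    rw [add_top, ENNReal.mul_top h2, add_top]
  have hpt : ∀ j, ∀ m : ℕ, pt i ((t j + m : ℕ) : ℤ) = pt i (m : ℤ) + pt i (t j : ℤ) := by
    intro j m
    rw [pt_add]
    congr 1
    push_cast
    ring
  have hbdd : ∀ j ∈ range J', P (j + 1) → ∀ m ∈ Icc 1 h,
      BddAbove {k | Far K w (pt i ((t (j + 1) + m : ℕ) : ℤ)) k} := by
    intro j hj hPj m hm
    refine (GG_bdd (hGG j hj hPj m hm)).mono fun k hk => ?_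
    rw [Set.mem_ofPred_eq, hpt] at hk
    exact Far_shift hk
  have hρle : ∀ j ∈ range J', P (j + 1) → ∀ m ∈ Icc 1 h,
      (((2 * ρ (t (j + 1) + m) + 7) ^ d : ℕ) : ℝ≥0∞) ≤
        GG d K (sh (pt i (t (j + 1))) w) (pt i m) := by
    intro j hj hPj m hm
    refine GG_ge (Far_shift ?_)
    rw [← hpt]
    exact Nat.sSup_mem ⟨0, Far_zero _ _ _⟩ (hbdd j hj hPj m hm)
  -- real inequality for the sum
  set F : ℕ → ℕ := fun j => 8 * h + ∑ m ∈ Ioc (t j) (t (j + 1)), (2 * ρ m + 7) ^ d with hF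
  have hF1 : ∀ j, F (j + 1) = 8 * h + ∑ m ∈ Icc 1 h, (2 * ρ (t (j + 1) + m) + 7) ^ d := by
    intro j
    simp only [hF]
    congr 1
    symm
    refine Finset.sum_nbij' (fun m => t (j + 1) + m) (fun m => m - t (j + 1)) ?_ ?_ ?_ ?_ ?_
    · intro m hm
      rw [mem_Icc] at hm
      have e : t (j + 1 + 1) = t (j + 1) + h := by rw [tS, tS]; ring
      rw [mem_Ioc, e]; omega
    · intro m hm
      have e : t (j + 1 + 1) = t (j + 1) + h := by rw [tS, tS]; ring
      rw [mem_Ioc, e] at hm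
      rw [mem_Icc]; omega
    · intro m _; simp
    · intro m hm
      rw [mem_Ioc] at hm
      exact Nat.add_sub_cancel' hm.1.le
    · intro m _; rfl
  have hWW : ∀ j ∈ range J',
      ENNReal.ofReal (-(VV i L B h (sh (pt i (t (j + 1))) w)) +
        C0 * ((if P (j + 1) then F (j + 1) else 0 : ℕ) : ℝ)) ≤
      WW i L B K C0 h (sh (pt i (t (j + 1))) w) := by
    intro j hj
    have hv := VV_nonpos i L B h (sh (pt i (t (j + 1))) w) hB
    unfold WW
    by_cases hPj : P (j + 1)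
    · rw [if_pos hPj, if_neg hPj.2, ENNReal.ofReal_add (by linarith) (by positivity),
        ENNReal.ofReal_mul hC0.le, ENNReal.ofReal_natCast, hF1]
      gcongr
      push_cast
      gcongr with m hm
      have := hρle j hj hPj m hm
      push_cast at this
      exact this
    · have hg : YY (sh (pt i (t (j + 1))) w) i L h (-(B * h)) := by
        by_contra hg
        exact hPj ⟨Nat.succ_ne_zero j, hg⟩
      rw [if_neg hPj, if_pos hg]
      simp
  have hsum : ∑ j ∈ range J', (-(VV i L B h (sh (pt i (t (j + 1))) w)) +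
        C0 * ((if P (j + 1) then F (j + 1) else 0 : ℕ) : ℝ)) < A * h * J' := by
    rw [← ENNReal.ofReal_lt_ofReal_iff_of_nonneg]
    · refine lt_of_le_of_lt ?_ g3
      rw [ENNReal.ofReal_sum_of_nonneg]
      · refine Finset.sum_le_sum fun j hj => ?_
        rw [hshift]
        exact hWW j hj
      · intro j _
        have hv := VV_nonpos i L B h (sh (pt i (t (j + 1))) w) hB
        have : 0 ≤ C0 * ((if P (j + 1) then F (j + 1) else 0 : ℕ) : ℝ) := by positivity
        linarith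
    · refine Finset.sum_nonneg fun j _ => ?_
      have hv := VV_nonpos i L B h (sh (pt i (t (j + 1))) w) hB
      have : 0 ≤ C0 * ((if P (j + 1) then F (j + 1) else 0 : ℕ) : ℝ) := by positivity
      linarith
  have hQ : ∑ j ∈ bad.filter (· < J' + 1), F j =
      ∑ j ∈ range J', (if P (j + 1) then F (j + 1) else 0) := by
    have e1 : bad.filter (· < J' + 1) = (range (J' + 1)).filter P := by
      rw [hbad, Finset.filter_filter]
      refine Finset.filter_congr fun j hj => ?_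
      rw [mem_range] at hj
      exact ⟨fun h => h.1, fun h => ⟨h, hj⟩⟩
    rw [e1, Finset.sum_filter, Finset.sum_range_succ']
    have e2 : ¬ P 0 := fun h => h.1 rfl
    rw [if_neg e2, add_zero]
  have main := hCH d i hd w T K B L h (J' + 1) t bad c ρ hT hK hB h10 hL (by omega) hwT t0 ?_ c1
    ?_ ?_ _ rfl
  · obtain ⟨l, l1, l2, l3⟩ := main
    change l.length ≤ L * t (J' + 1) + ∑ j ∈ bad.filter (· < J' + 1), F j at l2
    have l3' := l3 l (List.prefix_refl l)
    change (∑ j ∈ range (J' + 1), c j) - (B + T * L + 2 * K + 2) *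
      (8 * h + ((∑ j ∈ bad.filter (· < J' + 1), F j : ℕ) : ℝ)) ≤ wt w l at l3'
    rw [hQ] at l2 l3'
    obtain ⟨Q, hQdef⟩ : ∃ Q : ℕ, Q = ∑ j ∈ range J', (if P (j + 1) then F (j + 1) else 0) :=
      ⟨_, rfl⟩
    rw [← hQdef] at l2 l3'
    have hsum2 : (∑ j ∈ range J', -(VV i L B h (sh (pt i (t (j + 1))) w))) + C0 * Q <
        A * h * J' := by
      rw [Finset.sum_add_distrib, ← Finset.mul_sum] at hsum
      rw [hQdef, Nat.cast_sum]
      exact hsum
    have hV0 : 0 ≤ ∑ j ∈ range J', -(VV i L B h (sh (pt i (t (j + 1))) w)) :=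
      Finset.sum_nonneg fun j _ => by
        have hv := VV_nonpos i L B h (sh (pt i (t (j + 1))) w) hB
        linarith
    refine ⟨Q, by linarith, l, ?_, ?_, ?_⟩
    · rw [← tS]; exact l1
    · rw [← tS]; exact l2
    · have hsc : ∑ j ∈ range J', (VV i L B h (sh (pt i (t (j + 1))) w) - δ) ≤
          ∑ j ∈ range J', c (j + 1) :=
        Finset.sum_le_sum fun j _ => c3 (j + 1) (Nat.succ_ne_zero j)
      rw [Finset.sum_sub_distrib, Finset.sum_const, card_range, nsmul_eq_mul] at hsc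
      rw [Finset.sum_range_succ', c2 0 rfl] at l3'
      rw [Finset.sum_neg_distrib] at hsum2
      have hrh : (r : ℝ) ≤ h := by exact_mod_cast hr.le
      have hQ0 : (0 : ℝ) ≤ (Q : ℝ) := Nat.cast_nonneg Q
      have hh0 : (0 : ℝ) ≤ (h : ℝ) := Nat.cast_nonneg h
      have h8 : (0 : ℝ) ≤ 8 * h + Q := by linarith
      have hm1 : (B + T * L + 2 * K + 2) * (8 * h + Q) ≤ C0 * (8 * h + Q) :=
        mul_le_mul_of_nonneg_right hC h8
      have hm2 : B * r ≤ B * h := mul_le_mul_of_nonneg_left hrh hB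
      linarith
  · -- block lengths
    intro j hj
    rcases Nat.eq_zero_or_pos j with rfl | hj0
    · rw [t0, tS]; omega
    · obtain ⟨j, rfl⟩ : ∃ k, j = k + 1 := ⟨j - 1, by omega⟩
      have e : t (j + 1 + 1) = t (j + 1) + h := by rw [tS, tS]; ring
      rw [e]; omega
  · -- good blocks
    intro j hj hjb
    rcases Nat.eq_zero_or_pos j with rfl | hj0
    · have e1 : t (0 + 1) = h + r := by rw [tS]; ring
      rw [t0, e1, c2 0 rfl]
      obtain ⟨l, l1, l2, l3⟩ := g0
      refine ⟨by rw [Nat.cast_zero, sub_zero, Nat.cast_add], l, ?_, ?_, l3⟩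
      · have : pt i ((0 : ℕ) : ℤ) = 0 := by simp [pt]
        rw [this]
        exact l1
      · simpa using l2
    · obtain ⟨j, rfl⟩ : ∃ k, j = k + 1 := ⟨j - 1, by omega⟩
      have e : t (j + 1 + 1) = t (j + 1) + h := by rw [tS, tS]; ring
      have hg : YY (sh (pt i (t (j + 1))) w) i L h (-(B * h)) := by
        by_contra hg
        apply hjb
        rw [hbad, mem_filter, mem_range]
        exact ⟨hj, Nat.succ_ne_zero j, hg⟩
      obtain ⟨h1, l, l1, l2, l3⟩ := c4 (j + 1) (Nat.succ_ne_zero j) hg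
      refine ⟨?_, l.map (· + pt i (t (j + 1))), ?_, ?_, ?_⟩
      · rw [e]; push_cast; simpa using h1
      · have := SB_shift (pt i (t (j + 1))) l1
        rw [zero_add] at this
        have e2 : pt i ((t (j + 1 + 1) : ℕ) : ℤ) = pt i (h : ℤ) + pt i (t (j + 1) : ℤ) := by
          rw [e, hpt]
        rw [e2]; exact this
      · rw [List.length_map, e]; simpa using l2
      · rw [wt_shift]; exact l3
  · -- bad blocks
    intro j hj hjb m hm1 hm2 _ y hy
    rw [hbad, mem_filter, mem_range] at hjb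
    obtain ⟨j, rfl⟩ : ∃ k, j = k + 1 := ⟨j - 1, by have := hjb.2.1; omega⟩
    have e : t (j + 1 + 1) = t (j + 1) + h := by rw [tS, tS]; ring
    have hjJ : j + 1 ≠ J' := by
      intro hcon
      apply hjb.2.2
      rw [hcon]
      have : t J' = r + h * J' := by rw [← hcon, tS]
      rw [this]; exact g1
    have hjr : j ∈ range J' := by rw [mem_range]; omega
    have hmm : m = t (j + 1) + (m - t (j + 1)) := by omega
    have hfar : Far K w (pt i m) (nm (y - pt i m)) := ⟨y, hy, le_rfl⟩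
    have hbd := hbdd j hjr hjb.2 (m - t (j + 1)) (by rw [mem_Icc]; omega)
    rw [← hmm] at hbd
    have hmh : h < m := by
      have : h ≤ t (j + 1) := by rw [tS]; nlinarith
      omega
    have hmR : m ≤ r + h * J' := by
      have : t (j + 1 + 1) ≤ r + h * J' := by
        rw [tS]
        have : j + 1 + 1 ≤ J' := by omega
        have := Nat.mul_le_mul_left h this
        omega
      omega
    have hnf := g2 m hmh hmR
    have hlt : nm (y - pt i m) < min m (r + h * (J' + 1) - m) - 2 := by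
      by_contra hcon
      exact hnf (Far_mono (not_lt.1 hcon) hfar)
    have hab := natAbs_le_nm (y - pt i m) i
    have he : (y - pt i (m : ℤ)) i = y i - m := by rw [Pi.sub_apply, pt_apply]
    rw [he] at hab
    refine ⟨le_csSup hbd hfar, ?_, ?_⟩
    · omega
    · rw [tS]
      generalize r + h * (J' + 1) = Rr at hlt ⊢
      omega

/-! ### the probabilistic part -/

lemma geo1 (ρ : ℝ) (h0 : 0 < ρ) (h1 : ρ ≤ 1 / 2) (a b : ℕ) (hab : a ≤ b) :
    ∑ m ∈ Ioc a b, ρ ^ m ≤ ρ ^ a - ρ ^ b := by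
  induction b, hab using Nat.le_induction with
  | base => simp
  | succ b hab ih =>
    rw [Finset.sum_Ioc_succ_top (by omega)]
    have : ρ ^ (b + 1) = ρ ^ b * ρ := pow_succ _ _
    have h2 : 0 < ρ ^ b := by positivity
    nlinarith

lemma geo2 (ρ : ℝ) (h0 : 0 < ρ) (h1 : ρ ≤ 1 / 2) (R a b : ℕ) (hab : a ≤ b) (hbR : b ≤ R) :
    ∑ m ∈ Ioc a b, ρ ^ (R - m) ≤ 2 * ρ ^ (R - b) := by
  induction b, hab using Nat.le_induction with
  | base => simp; positivity
  | succ b hab ih =>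
    rw [Finset.sum_Ioc_succ_top (by omega)]
    have ih' := ih (by omega)
    have e : R - b = (R - (b + 1)) + 1 := by omega
    rw [e, pow_succ] at ih'
    have h2 : 0 < ρ ^ (R - (b + 1)) := by positivity
    nlinarith

lemma far_sum (hTAIL : S_TAIL) (i : Fin d) (ν : Measure ℝ) [IsProbabilityMeasure ν] (K : ℝ)
    (hK : ν (Set.Iio (-K)) ≤ q0 d) (h R a : ℕ) (h10 : 10 ≤ h) (haR : a + h ≤ R) (ha : h ≤ a) :
    law ν d {w | ∃ m : ℕ, h < m ∧ m ≤ a ∧ Far K w (pt i m) (min m (R - m) - 2)} ≤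
      ENNReal.ofReal (3 * Real.exp 8 * Real.exp (-4) ^ h) := by
  have h1 : {w : V d → ℝ | ∃ m : ℕ, h < m ∧ m ≤ a ∧ Far K w (pt i m) (min m (R - m) - 2)} ⊆
      ⋃ m ∈ Ioc h a, {w | Far K w (pt i m) (min m (R - m) - 2)} := by
    rintro w ⟨m, hm1, hm2, hm3⟩
    simp only [Set.mem_iUnion]
    exact ⟨m, mem_Ioc.2 ⟨hm1, hm2⟩, hm3⟩
  refine (measure_mono h1).trans ((measure_biUnion_finset_le _ _).trans ?_)
  have h2 : ∀ m ∈ Ioc h a, law ν d {w | Far K w (pt i m) (min m (R - m) - 2)} ≤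
      ENNReal.ofReal (Real.exp 8 * Real.exp (-4) ^ m + Real.exp 8 * Real.exp (-4) ^ (R - m)) := by
    intro m hm
    rw [mem_Ioc] at hm
    refine ((hTAIL d ν K hK (pt i m) _).1).trans (ENNReal.ofReal_le_ofReal ?_)
    have e : ∀ n : ℕ, 2 ≤ n → Real.exp (-(4 * ((n - 2 : ℕ) : ℝ))) =
        Real.exp 8 * Real.exp (-4) ^ n := by
      intro n hn
      rw [← Real.exp_nat_mul, ← Real.exp_add]
      congr 1
      rw [Nat.cast_sub hn]; push_cast; ring
    rcases le_total m (R - m) with hle | hle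
    · rw [min_eq_left hle, e m (by omega)]
      have : 0 ≤ Real.exp 8 * Real.exp (-4) ^ (R - m) := by positivity
      linarith
    · rw [min_eq_right hle, e (R - m) (by omega)]
      have : 0 ≤ Real.exp 8 * Real.exp (-4) ^ m := by positivity
      linarith
  refine (Finset.sum_le_sum h2).trans ?_
  rw [← ENNReal.ofReal_sum_of_nonneg (fun _ _ => by positivity)]
  refine ENNReal.ofReal_le_ofReal ?_
  rw [Finset.sum_add_distrib, ← Finset.mul_sum, ← Finset.mul_sum]
  have hρ : Real.exp (-4) ≤ 1 / 2 := by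
    rw [Real.exp_neg, one_div]
    apply inv_anti₀ (by norm_num)
    have := Real.add_one_le_exp (4 : ℝ)
    linarith
  have g1 := geo1 (Real.exp (-4)) (Real.exp_pos _) hρ h a ha
  have g2 := geo2 (Real.exp (-4)) (Real.exp_pos _) hρ R h a ha (by omega)
  have g3 : Real.exp (-4) ^ (R - a) ≤ Real.exp (-4) ^ h :=
    pow_le_pow_of_le_one (Real.exp_pos _).le (by linarith) (by omega)
  have g4 : 0 ≤ Real.exp (-4) ^ a := by positivity
  have g5 : 0 < Real.exp 8 := Real.exp_pos _
  have g6 : ∑ m ∈ Ioc h a, Real.exp (-4) ^ m + ∑ m ∈ Ioc h a, Real.exp (-4) ^ (R - m) ≤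
      3 * Real.exp (-4) ^ h := by linarith
  calc _ = Real.exp 8 * (∑ m ∈ Ioc h a, Real.exp (-4) ^ m +
      ∑ m ∈ Ioc h a, Real.exp (-4) ^ (R - m)) := by ring
    _ ≤ Real.exp 8 * (3 * Real.exp (-4) ^ h) := mul_le_mul_of_nonneg_left g6 g5.le
    _ = _ := by ring

lemma exists_K (ν : Measure ℝ) [IsProbabilityMeasure ν] (d : ℕ) :
    ∃ K : ℝ, 0 ≤ K ∧ ν (Set.Iio (-K)) ≤ q0 d := by
  have h1 : Tendsto (fun n : ℕ => ν (Set.Iio (-(n : ℝ)))) atTop (𝓝 0) := by
    have h2 : Antitone (fun n : ℕ => Set.Iio (-(n : ℝ))) := by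
      intro a b hab
      apply Set.Iio_subset_Iio
      have : (a : ℝ) ≤ b := by exact_mod_cast hab
      linarith
    have h3 := tendsto_measure_iInter_atTop (μ := ν) (s := fun n : ℕ => Set.Iio (-(n : ℝ)))
      (fun n => measurableSet_Iio.nullMeasurableSet) h2 ⟨0, measure_ne_top _ _⟩
    have h4 : (⋂ n : ℕ, Set.Iio (-(n : ℝ))) = ∅ := by
      rw [Set.eq_empty_iff_forall_notMem]
      intro x hx
      obtain ⟨n, hn⟩ := exists_nat_gt (-x)
      have := Set.mem_iInter.1 hx n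
      rw [Set.mem_Iio] at this
      linarith
    rw [h4, measure_empty] at h3
    exact h3
  have h5 : 0 < q0 d := by
    unfold q0
    rw [ENNReal.ofReal_pos]
    positivity
  obtain ⟨n, hn⟩ := (h1.eventually (gt_mem_nhds h5)).exists
  exact ⟨n, Nat.cast_nonneg n, hn.le⟩

lemma null_T (ν : Measure ℝ) [IsProbabilityMeasure ν] (d : ℕ) (T : ℝ) (hT : ν (Set.Ioi T) = 0) :
    law ν d {w | ∃ x, T < w x} = 0 := by
  have h1 : {w : V d → ℝ | ∃ x, T < w x} = ⋃ x : V d, {w | T < w x} := by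
    ext w; simp
  rw [h1, measure_iUnion_null_iff]
  intro x
  have h2 := (measurePreserving_eval_infinitePi (fun _ : V d => ν) x)
  have h3 := h2.measure_preimage (measurableSet_Ioi (a := T)).nullMeasurableSet
  rw [hT] at h3
  exact h3

lemma aa_nonpos (ν : Measure ℝ) [IsProbabilityMeasure ν] (i : Fin d) (L : ℕ) (B : ℝ) (h : ℕ)
    (hB : 0 ≤ B) : aa ν i L B h ≤ 0 := by
  unfold aa
  refine div_nonpos_of_nonpos_of_nonneg ?_ (Nat.cast_nonneg h)
  exact integral_nonpos fun w => VV_nonpos i L B h w hB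

theorem clb (hCH : S_CH) (hWW : S_WW) (hTAIL : S_TAIL) : S_CLB := by
  intro d i ν _ T B L hyp ε η hε hη
  obtain ⟨hd, hT, hTν, hB, hL, hlim⟩ := hyp
  obtain ⟨K, hK0, hK⟩ := exists_K ν d
  obtain ⟨C0, hC0⟩ : ∃ C0 : ℝ, C0 = B + T * L + 2 * K + 2 + B + ε + 1 := ⟨_, rfl⟩
  have hTL : 0 ≤ T * L := by positivity
  have hC0pos : 0 < C0 := by linarith
  obtain ⟨h1, hh1⟩ := hWW d i ν K B L hK hB hlim C0 (ε / 2) hC0pos.le (half_pos hε)
  have hη8 : 0 < ENNReal.ofReal (η / 8) := by rw [ENNReal.ofReal_pos]; linarith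
  obtain ⟨h2, hh2⟩ := eventually_atTop.1 (hlim.eventually (gt_mem_nhds hη8))
  have hgeo : Tendsto (fun h : ℕ => 3 * Real.exp 8 * Real.exp (-4) ^ h) atTop (𝓝 0) := by
    have := (tendsto_pow_atTop_nhds_zero_of_lt_one (Real.exp_pos (-4)).le
      (by rw [Real.exp_lt_one_iff]; norm_num)).const_mul (3 * Real.exp 8)
    simpa using this
  obtain ⟨h3, hh3⟩ := eventually_atTop.1 (hgeo.eventually (gt_mem_nhds (show 0 < η / 4 by linarith)))
  refine ⟨max (max h1 h2) (max h3 10), fun h hh => ?_⟩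
  have hh1' : h1 ≤ h := le_trans (le_trans (le_max_left _ _) (le_max_left _ _)) hh
  have hh2' : h2 ≤ h := le_trans (le_trans (le_max_right _ _) (le_max_left _ _)) hh
  have hh3' : h3 ≤ h := le_trans (le_trans (le_max_left _ _) (le_max_right _ _)) hh
  have h10 : 10 ≤ h := le_trans (le_trans (le_max_right _ _) (le_max_right _ _)) hh
  obtain ⟨C', hC'⟩ := hh1 h hh1'
  have hsq : Tendsto (fun n : ℕ => C' / Real.sqrt n) atTop (𝓝 0) :=
    Tendsto.div_atTop tendsto_const_nhds (Real.tendsto_sqrt_atTop.comp tendsto_natCast_atTop_atTop)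
  obtain ⟨N0, hN0⟩ := eventually_atTop.1 (hsq.eventually (gt_mem_nhds (show 0 < η / 2 by linarith)))
  obtain ⟨M0, hM0⟩ := exists_nat_ge ((2 * B + 8 * C0) * h / (ε / 4))
  refine ⟨max (h * (N0 + 2)) M0, fun R hR => ?_⟩
  have hR1 : h * (N0 + 2) ≤ R := le_trans (le_max_left _ _) hR
  have hR2 : (M0 : ℝ) ≤ R := by exact_mod_cast le_trans (le_max_right _ _) hR
  have hRdiv : N0 + 2 ≤ R / h := by
    rw [Nat.le_div_iff_mul_le (by omega)]; rw [Nat.mul_comm]; exact hR1
  obtain ⟨J', hJ'⟩ : ∃ J', R / h = J' + 1 := ⟨R / h - 1, by omega⟩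
  obtain ⟨r, hr⟩ : ∃ r, r = R % h := ⟨_, rfl⟩
  have hrh : r < h := by rw [hr]; exact Nat.mod_lt _ (by omega)
  have hReq : R = r + h * (J' + 1) := by
    rw [hr, ← hJ']; exact (Nat.mod_add_div R h).symm
  have hJ1 : 1 ≤ J' := by omega
  have hJN : N0 ≤ J' := by omega
  obtain ⟨A, hA⟩ : ∃ A : ℝ, A = -(aa ν i L B h) + ε / 2 := ⟨_, rfl⟩
  have hA0 : 0 < A := by have := aa_nonpos ν i L B h hB; linarith
  have hAB : A ≤ B + ε / 2 := by have := aa_ge ν i L B h hB (by omega); linarith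
  have hhpos : (0 : ℝ) < h := by exact_mod_cast (by omega : 0 < h)
  have hhJR : (h : ℝ) * J' ≤ R := by
    have : h * J' ≤ R := by rw [hReq]; nlinarith
    exact_mod_cast this
  have hJR : (J' : ℝ) ≤ R := by
    have : J' ≤ R := by rw [hReq]; nlinarith
    exact_mod_cast this
  have hR0 : (0 : ℝ) ≤ R := Nat.cast_nonneg R
  -- the bad events
  set E0 : Set (V d → ℝ) := {w | ¬ YY w i L (h + r) (-(B * (h + r : ℕ)))} with hE0
  set E1 : Set (V d → ℝ) := {w | sh (pt i (r + h * J' : ℕ)) w ∈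
    {w' | ¬ YY w' i L h (-(B * h))}} with hE1
  set E2 : Set (V d → ℝ) := {w | ∃ m : ℕ, h < m ∧ m ≤ r + h * J' ∧
    Far K w (pt i m) (min m (R - m) - 2)} with hE2
  set E3 : Set (V d → ℝ) := {w | sh (pt i (h + r)) w ∈ {w' | ENNReal.ofReal (A * h * J') ≤
    ∑ j ∈ range J', WW i L B K C0 h (sh (pt i (j * h)) w')}} with hE3
  set E4 : Set (V d → ℝ) := {w | ∃ x, T < w x} with hE4
  have m0 : law ν d E0 ≤ ENNReal.ofReal (η / 8) := (hh2 (h + r) (by omega)).le
  have m1 : law ν d E1 ≤ ENNReal.ofReal (η / 8) := by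
    rw [hE1, law_sh]; exact (hh2 h hh2').le
  have m2 : law ν d E2 ≤ ENNReal.ofReal (η / 4) :=
    (far_sum hTAIL i ν K hK h R (r + h * J') h10 (by rw [hReq]; ring_nf; omega)
      (by nlinarith)).trans (ENNReal.ofReal_le_ofReal (hh3 h hh3').le)
  have m3 : law ν d E3 ≤ ENNReal.ofReal (η / 2) := by
    rw [hE3, law_sh, hA]
    exact (hC' J' hJ1).trans (ENNReal.ofReal_le_ofReal (hN0 J' hJN).le)
  have m4 : law ν d E4 = 0 := null_T ν d T hTν
  have hsub : {w | ¬ YY w i (2 * L) R ((aa ν i L B h - ε) * R)} ⊆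
      (((E0 ∪ E1) ∪ E2) ∪ E3) ∪ E4 := by
    intro w hw
    by_contra hcon
    simp only [Set.mem_union, not_or] at hcon
    obtain ⟨⟨⟨⟨n0, n1⟩, n2⟩, n3⟩, n4⟩ := hcon
    apply hw
    obtain ⟨Q, q1, l, l1, l2, l3⟩ := det hCH i hd w T K B (ε / 4) C0 A L h J' r hT hK0 hB
      (by linarith) h10 hL hrh
      (fun x => by
        by_contra hx
        exact n4 ⟨x, not_le.1 hx⟩) hJ1
      (by
        by_contra hx
        apply n0
        rw [hE0]
        push_cast
        exact hx)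
      (by
        by_contra hx
        exact n1 hx)
      (fun m hm1 hm2 hm3 => n2 ⟨m, hm1, hm2, by rw [hReq]; exact hm3⟩)
      (by
        by_contra hx
        exact n3 (not_lt.1 hx))
      (by linarith)
    have hQR : (Q : ℝ) ≤ R := by
      have e1 : A * h * J' ≤ (B + ε / 2) * R := by
        have : A * h * J' = A * (h * J') := by ring
        rw [this]
        exact mul_le_mul hAB hhJR (by positivity) (by linarith)
      have e2 : (B + ε / 2) * R ≤ C0 * R := mul_le_mul_of_nonneg_right (by linarith) hR0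
      exact le_of_mul_le_mul_left (by linarith) hC0pos
    have hQR' : Q ≤ R := by exact_mod_cast hQR
    refine ⟨l, ?_, ?_, ?_⟩
    · rw [hReq]; exact l1
    · rw [← hReq] at l2
      nlinarith
    · refine le_trans ?_ l3
      have e1 : A * h * J' ≤ A * R := by
        have : A * h * J' = A * (h * J') := by ring
        rw [this]
        exact mul_le_mul_of_nonneg_left hhJR hA0.le
      have e2 : (2 * B + 8 * C0) * h ≤ ε / 4 * R := by
        have : (2 * B + 8 * C0) * h / (ε / 4) ≤ R := hM0.trans hR2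
        rw [div_le_iff₀ (by linarith)] at this
        linarith
      have e3 : ε / 4 * J' ≤ ε / 4 * R := mul_le_mul_of_nonneg_left hJR (by linarith)
      have e4 : (aa ν i L B h - ε) * R = -(A * R) - ε / 4 * R - ε / 4 * R := by
        rw [hA]; ring
      rw [e4]
      linarith
  refine (measure_mono hsub).trans ?_
  refine (measure_union_le _ _).trans ?_
  rw [m4, add_zero]
  refine (measure_union_le _ _).trans ?_
  refine (add_le_add ((measure_union_le _ _).trans
    (add_le_add ((measure_union_le _ _).trans (add_le_add m0 m1)) m2)) m3).trans ?_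
  rw [← ENNReal.ofReal_add (by linarith) (by linarith),
    ← ENNReal.ofReal_add (by linarith) (by linarith),
    ← ENNReal.ofReal_add (by linarith) (by linarith)]
  refine ENNReal.ofReal_le_ofReal (by linarith)

end Pool.Agent.W479.GP
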